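import Mathlib

/-!
# MP_c5a801_co : a rotor mechanism all of whose configurations are transient

The graph has levels `L_n` of size `2 ^ n`, consecutive levels being completely joined. At a
vertex of `L_n` (`n ≥ 1`) the neighbours are ordered cyclically so that each neighbour in
`L_{n-1}` is followed by four neighbours in `L_{n+1}`.
-/

namespace Pool.Agent.Results.MP_c5a801_co.AllTransient

open Classical

/-- A rotor mechanism on a (locally finite) graph: for every vertex `v` a cyclic ordering of
the neighbours of `v`, given by an enumeration `order v 0, …, order v (deg v - 1)`. -/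
structure RotorMechanism {V : Type} (G : SimpleGraph V) where
  deg : V → ℕ
  order : ∀ v, Fin (deg v) ≃ G.neighborSet v

/-- The successor of the neighbour `w` in the cyclic ordering at `v`. -/
def RotorMechanism.succ {V : Type} {G : SimpleGraph V} (M : RotorMechanism G) (v : V)
    (w : G.neighborSet v) : G.neighborSet v :=
  M.order v (finRotate _ ((M.order v).symm w))

/-- A rotor configuration: every vertex is assigned one of its neighbours. -/
abbrev RotorConfig {V : Type} (G : SimpleGraph V) : Type := ∀ v : V, G.neighborSet v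

/-- One step of the rotor walk: the rotor at the current vertex is advanced to its
successor, and the particle moves to the vertex it now points to. -/
noncomputable def step {V : Type} {G : SimpleGraph V} (M : RotorMechanism G)
    (s : V × RotorConfig G) : V × RotorConfig G :=
  ((M.succ s.1 (s.2 s.1) : G.neighborSet s.1).1,
    Function.update s.2 s.1 (M.succ s.1 (s.2 s.1)))

/-- The rotor walk `(x_t, r_t)` with start vertex `x` and initial configuration `r`. -/
noncomputable def walk {V : Type} {G : SimpleGraph V} (M : RotorMechanism G) (x : V)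
    (r : RotorConfig G) : ℕ → V × RotorConfig G
  | 0 => (x, r)
  | t + 1 => step M (walk M x r t)

/-- An initial configuration is transient if (from every start vertex) every vertex is
visited only finitely often. -/
def Transient {V : Type} {G : SimpleGraph V} (M : RotorMechanism G) (r : RotorConfig G) :
    Prop :=
  ∀ x v : V, {t : ℕ | (walk M x r t).1 = v}.Finite

/-! ### The graph -/

/-- Vertices: pairs `(n, i)` with `i < 2 ^ n`. -/
abbrev W : Type := {p : ℕ × ℕ // p.2 < 2 ^ p.1}

/-- The level of a vertex. -/
def lev (p : W) : ℕ := p.1.1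

/-- Consecutive levels are completely joined. -/
def L : SimpleGraph W where
  Adj p q := lev p + 1 = lev q ∨ lev q + 1 = lev p
  symm := ⟨by
    intro p q h
    exact h.symm⟩
  loopless := ⟨by
    intro p h
    rcases h with h | h <;> omega⟩

lemma adj_iff (p q : W) : L.Adj p q ↔ lev p + 1 = lev q ∨ lev q + 1 = lev p := Iff.rfl

/-- Vertex constructor. -/
def mk (n i : ℕ) (h : i < 2 ^ n) : W := ⟨(n, i), h⟩

@[simp] lemma lev_mk (n i : ℕ) (h : i < 2 ^ n) : lev (mk n i h) = n := rfl

/-- The enumeration of the neighbours of the root. -/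
def order0 (p : W) (hp : lev p = 0) : Fin 2 ≃ L.neighborSet p where
  toFun i := ⟨mk 1 i.1 (by simpa using i.2), Or.inl (by simp [hp])⟩
  invFun w := ⟨w.1.1.2, by
    have h1 := w.1.2
    have h2 : lev w.1 = 1 := by
      rcases w.2 with h | h
      · omega
      · omega
    unfold lev at h2
    rw [h2] at h1
    simpa using h1⟩
  left_inv := by
    intro i
    rfl
  right_inv := by
    intro w
    have h2 : lev w.1 = 1 := by
      rcases w.2 with h | h
      · omega
      · omega
    apply Subtype.ext
    apply Subtype.ext
    refine Prod.ext ?_ rfl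
    exact h2.symm

/-- The enumeration of the neighbours of a vertex of level `k + 1`, indexed by
`Fin (2 ^ k) × Fin 5`. -/
def orderPair (p : W) (k : ℕ) (hp : lev p = k + 1) :
    Fin (2 ^ k) × Fin 5 ≃ L.neighborSet p where
  toFun x := if hx : x.2.1 = 0 then ⟨mk k x.1.1 x.1.2, Or.inr (by simp [hp])⟩
    else ⟨mk (k + 2) (4 * x.1.1 + (x.2.1 - 1)) (by
      have h1 := x.1.2
      have h2 := x.2.2
      have h3 : 2 ^ (k + 2) = 4 * 2 ^ k := by ring
      omega), Or.inl (by simp [hp])⟩
  invFun w := if hw : lev w.1 = k then (⟨w.1.1.2, by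
      have := w.1.2
      unfold lev at hw
      rwa [hw] at this⟩, 0)
    else (⟨w.1.1.2 / 4, by
      have h1 := w.1.2
      have h2 : lev w.1 = k + 2 := by
        rcases w.2 with h | h
        · omega
        · omega
      unfold lev at h2
      rw [h2] at h1
      have h3 : 2 ^ (k + 2) = 4 * 2 ^ k := by ring
      omega⟩, ⟨w.1.1.2 % 4 + 1, by omega⟩)
  left_inv := by
    rintro ⟨i, j⟩
    by_cases hj : j.1 = 0
    · have : j = 0 := Fin.ext hj
      subst this
      simp
      rfl
    · simp only [hj, dif_neg, not_false_eq_true, lev_mk]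
      rw [dif_neg (by omega)]
      refine Prod.ext (Fin.ext ?_) (Fin.ext ?_)
      · show (4 * i.1 + (j.1 - 1)) / 4 = i.1
        have := j.2
        omega
      · show (4 * i.1 + (j.1 - 1)) % 4 + 1 = j.1
        have := j.2
        omega
  right_inv := by
    intro w
    by_cases hw : lev w.1 = k
    · simp only [hw, dif_pos]
      apply Subtype.ext
      apply Subtype.ext
      refine Prod.ext ?_ rfl
      exact hw.symm
    · have h2 : lev w.1 = k + 2 := by
        rcases w.2 with h | h
        · omega
        · omega
      simp only [hw, dif_neg, not_false_eq_true]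
      rw [dif_neg (by simp)]
      apply Subtype.ext
      apply Subtype.ext
      refine Prod.ext ?_ ?_
      · exact h2.symm
      · show 4 * (w.1.1.2 / 4) + (w.1.1.2 % 4 + 1 - 1) = w.1.1.2
        omega

/-- The degrees. -/
def degM (p : W) : ℕ := if lev p = 0 then 2 else 2 ^ (lev p - 1) * 5

/-- The enumeration of the neighbours of `p`. -/
def orderM (p : W) : Fin (degM p) ≃ L.neighborSet p :=
  if hp : lev p = 0 then
    (finCongr (if_pos hp)).trans (order0 p hp)
  else (finCongr (if_neg hp)).trans
    (finProdFinEquiv.symm.trans (orderPair p (lev p - 1) (by omega)))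

/-- The rotor mechanism. -/
def M : RotorMechanism L where
  deg := degM
  order := orderM

section General

variable {V : Type} {G : SimpleGraph V} (M : RotorMechanism G) (s : V × RotorConfig G)

lemma step_fst : (step M s).1 = (M.succ s.1 (s.2 s.1) : G.neighborSet s.1).1 := rfl

lemma step_self : (step M s).2 s.1 = M.succ s.1 (s.2 s.1) := by
  simp [step]

lemma step_ne {v : V} (hv : v ≠ s.1) : (step M s).2 v = s.2 v := by
  rw [step]
  exact Function.update_of_ne hv _ _

end General


/-- The position (mod 5) of `w` in the cyclic order at `v`. -/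
def c (v : W) (w : L.neighborSet v) : ℕ := ((orderM v).symm w).1 % 5

lemma finRotate_val (d : ℕ) (i : Fin d) : (finRotate d i).1 = (i.1 + 1) % d := by
  cases d with
  | zero => exact i.elim0
  | succ n =>
    rw [coe_finRotate]
    split_ifs with h
    · subst h
      simp
    · have h1 : i.1 < n := by
        have h2 := i.2
        have h3 : i.1 ≠ n := fun h3 => h (Fin.ext h3)
        omega
      rw [Nat.mod_eq_of_lt (by omega)]

lemma c_lt (v : W) (w : L.neighborSet v) : c v w < 5 := Nat.mod_lt _ (by norm_num)

lemma c_succ (v : W) (hv : lev v ≠ 0) (w : L.neighborSet v) :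
    c v (M.succ v w) = (c v w + 1) % 5 := by
  have hd : degM v = 2 ^ (lev v - 1) * 5 := if_neg hv
  have h1 : M.succ v w = orderM v (finRotate _ ((orderM v).symm w)) := rfl
  rw [c, h1, Equiv.symm_apply_apply, finRotate_val,
    Nat.mod_mod_of_dvd _ (by rw [hd]; exact Dvd.intro_left _ rfl), c]
  omega

lemma c_eq (v : W) (hv : lev v ≠ 0) (w : L.neighborSet v) :
    c v w = ((orderPair v (lev v - 1) (by omega)).symm w).2.1 := by
  have h1 : orderM v = (finCongr (if_neg hv)).trans
      (finProdFinEquiv.symm.trans (orderPair v (lev v - 1) (by omega))) := dif_neg hv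
  have h2 : ((orderM v).symm w).1 =
      ((orderPair v (lev v - 1) (by omega)).symm w).2.1 +
        5 * ((orderPair v (lev v - 1) (by omega)).symm w).1.1 := by
    rw [h1]
    rfl
  rw [c, h2, Nat.add_mul_mod_self_left]
  exact Nat.mod_eq_of_lt (Fin.is_lt _)

lemma c_zero_iff (v : W) (hv : lev v ≠ 0) (w : L.neighborSet v) :
    c v w = 0 ↔ lev w.1 + 1 = lev v := by
  rw [c_eq v hv w]
  unfold orderPair
  simp only [Equiv.coe_fn_symm_mk]
  by_cases hw : lev w.1 = lev v - 1
  · rw [dif_pos hw]
    simp
    omega
  · rw [dif_neg hw]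
    simp
    omega

lemma lev_nbr (v : W) (w : L.neighborSet v) : lev w.1 = lev v + 1 ∨ lev w.1 + 1 = lev v := by
  rcases w.2 with h | h
  · exact Or.inl h.symm
  · exact Or.inr h

/-! ### Counting -/

section Count

variable (x : W) (r : RotorConfig L)

/-- the position at time `t` -/
noncomputable def X (t : ℕ) : W := (walk M x r t).1

/-- the configuration at time `t` -/
noncomputable def R (t : ℕ) : RotorConfig L := (walk M x r t).2

lemma X_succ (t : ℕ) : X x r (t + 1) = (M.succ (X x r t) (R x r t (X x r t))).1 := rfl

lemma R_succ_self (t : ℕ) :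
    R x r (t + 1) (X x r t) = M.succ (X x r t) (R x r t (X x r t)) :=
  step_self M (walk M x r t)

lemma R_succ_ne (t : ℕ) {v : W} (hv : v ≠ X x r t) : R x r (t + 1) v = R x r t v :=
  step_ne M (walk M x r t) hv

lemma lev_step (t : ℕ) :
    lev (X x r (t + 1)) = lev (X x r t) + 1 ∨ lev (X x r (t + 1)) + 1 = lev (X x r t) := by
  rw [X_succ]
  exact lev_nbr _ _

/-- number of steps from level `n` to level `n + 1` before time `t` -/
noncomputable def Dn (n t : ℕ) : ℕ :=
  Nat.count (fun s => lev (X x r s) = n ∧ lev (X x r (s + 1)) = n + 1) t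

/-- number of steps from level `n` to level `n - 1` before time `t` -/
noncomputable def Up (n t : ℕ) : ℕ :=
  Nat.count (fun s => lev (X x r s) = n ∧ lev (X x r (s + 1)) + 1 = n) t

lemma conservation (n t : ℕ) :
    (Dn x r n t : ℤ) - Up x r (n + 1) t =
      (if n < lev (X x r t) then 1 else 0) - (if n < lev (X x r 0) then 1 else 0) := by
  induction t with
  | zero => simp [Dn, Up]
  | succ t ih =>
    have h1 : Dn x r n (t + 1) = Dn x r n t +
        if lev (X x r t) = n ∧ lev (X x r (t + 1)) = n + 1 then 1 else 0 :=
      Nat.count_succ _ _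
    have h2 : Up x r (n + 1) (t + 1) = Up x r (n + 1) t +
        if lev (X x r t) = n + 1 ∧ lev (X x r (t + 1)) + 1 = n + 1 then 1 else 0 :=
      Nat.count_succ _ _
    rw [h1, h2]
    push_cast
    have h3 := lev_step x r t
    split_ifs at ih ⊢ <;> omega

/-- The potential of level `n`. -/
noncomputable def Pot (n t : ℕ) : ℤ :=
  ∑ i : Fin (2 ^ n), (c (mk n i.1 i.2) (R x r t (mk n i.1 i.2)) : ℤ)

lemma pot_step (n t : ℕ) (hn : n ≠ 0) :
    Pot x r n (t + 1) = Pot x r n t +
      (if lev (X x r t) = n ∧ lev (X x r (t + 1)) = n + 1 then 1 else 0) -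
      4 * (if lev (X x r t) = n ∧ lev (X x r (t + 1)) + 1 = n then 1 else 0) := by
  by_cases hX : lev (X x r t) = n
  · -- the vertex of level n
    obtain ⟨i0, hi0, hi0'⟩ : ∃ i0, ∃ h : i0 < 2 ^ n, X x r t = mk n i0 h := by
      refine ⟨(X x r t).1.2, ?_, ?_⟩
      · have := (X x r t).2
        unfold lev at hX
        rwa [hX] at this
      · apply Subtype.ext
        exact Prod.ext hX rfl
    have h1 : ∀ i : Fin (2 ^ n), i ≠ ⟨i0, hi0⟩ →
        R x r (t + 1) (mk n i.1 i.2) = R x r t (mk n i.1 i.2) := by
      intro i hi
      apply R_succ_ne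
      rw [hi0']
      intro he
      apply hi
      apply Fin.ext
      exact congrArg (fun p : W => p.1.2) he
    have h2 : Pot x r n (t + 1) - Pot x r n t =
        (c (X x r t) (R x r (t + 1) (X x r t)) : ℤ) - c (X x r t) (R x r t (X x r t)) := by
      rw [Pot, Pot, ← Finset.sum_sub_distrib, Finset.sum_eq_single (⟨i0, hi0⟩ : Fin (2 ^ n))]
      · rw [hi0']
      · intro i _ hi
        rw [h1 i hi]
        ring
      · intro h
        exact absurd (Finset.mem_univ _) h
    have h3 : R x r (t + 1) (X x r t) = M.succ (X x r t) (R x r t (X x r t)) :=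
      R_succ_self x r t
    have hn' : lev (X x r t) ≠ 0 := by rw [hX]; exact hn
    have h4 := c_succ (X x r t) hn' (R x r t (X x r t))
    have h5 := c_zero_iff (X x r t) hn' (M.succ (X x r t) (R x r t (X x r t)))
    rw [h3, h4] at h2
    rw [← X_succ, h4] at h5
    have h6 := c_lt (X x r t) (R x r t (X x r t))
    have h7 := lev_step x r t
    have h8 : Pot x r n (t + 1) = Pot x r n t +
      ((((c (X x r t) (R x r t (X x r t)) + 1) % 5 : ℕ) : ℤ) -
        c (X x r t) (R x r t (X x r t))) := by
      rw [← h2]; ring
    rw [h8]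
    rw [hX] at h5 h7 ⊢
    by_cases hup : lev (X x r (t + 1)) + 1 = n
    · have h9 := h5.2 hup
      have h10 : c (X x r t) (R x r t (X x r t)) = 4 := by omega
      have h11 : ¬ (lev (X x r (t + 1)) = n + 1) := by omega
      rw [h9, h10]
      simp only [hup, h11, and_self, and_false, if_true, if_false]
      push_cast
      ring
    · have h9 : ¬ ((c (X x r t) (R x r t (X x r t)) + 1) % 5 = 0) := fun h => hup (h5.1 h)
      have h10 : (c (X x r t) (R x r t (X x r t)) + 1) % 5 =
          c (X x r t) (R x r t (X x r t)) + 1 := by omega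
      have h11 : lev (X x r (t + 1)) = n + 1 := by omega
      rw [h10, if_pos ⟨rfl, h11⟩, if_neg (fun h => hup h.2)]
      push_cast
      ring
  · have h1 : Pot x r n (t + 1) = Pot x r n t := by
      rw [Pot, Pot]
      refine Finset.sum_congr rfl fun i _ => ?_
      rw [R_succ_ne]
      intro he
      apply hX
      rw [← he]
      rfl
    rw [h1]
    simp [hX]

lemma pot_eq (n t : ℕ) (hn : n ≠ 0) :
    (Dn x r n t : ℤ) - 4 * Up x r n t = Pot x r n t - Pot x r n 0 := by
  induction t with
  | zero => simp [Dn, Up]
  | succ t ih =>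
    have h1 : Dn x r n (t + 1) = Dn x r n t +
        if lev (X x r t) = n ∧ lev (X x r (t + 1)) = n + 1 then 1 else 0 :=
      Nat.count_succ _ _
    have h2 : Up x r n (t + 1) = Up x r n t +
        if lev (X x r t) = n ∧ lev (X x r (t + 1)) + 1 = n then 1 else 0 :=
      Nat.count_succ _ _
    rw [h1, h2, pot_step x r n t hn]
    push_cast
    linarith

lemma pot_nonneg (n t : ℕ) : 0 ≤ Pot x r n t :=
  Finset.sum_nonneg fun _ _ => by positivity

lemma pot_le (n t : ℕ) : Pot x r n t ≤ 4 * 2 ^ n := by
  rw [Pot]
  calc ∑ i : Fin (2 ^ n), (c (mk n i.1 i.2) (R x r t (mk n i.1 i.2)) : ℤ)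
      ≤ ∑ _i : Fin (2 ^ n), (4 : ℤ) := by
        refine Finset.sum_le_sum fun i _ => ?_
        have := c_lt (mk n i.1 i.2) (R x r t (mk n i.1 i.2))
        omega
    _ = 4 * 2 ^ n := by
        rw [Finset.sum_const, Finset.card_univ, Fintype.card_fin, nsmul_eq_mul]
        push_cast
        ring

lemma down_far (n t : ℕ) (h : lev x + t ≤ n) : Dn x r n t = 0 := by
  have h1 : ∀ s, lev (X x r s) ≤ lev x + s := by
    intro s
    induction s with
    | zero => exact le_rfl
    | succ s ih =>
      have := lev_step x r s
      omega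
  rw [Dn, Nat.count_eq_card_filter_range, Finset.card_eq_zero,
    Finset.filter_eq_empty_iff]
  intro s hs
  rw [Finset.mem_range] at hs
  have := h1 s
  omega

lemma down_bound (n t : ℕ) : (Dn x r n t : ℤ) ≤ 6 * 2 ^ n := by
  -- downward induction
  have key : ∀ k n, lev x + t ≤ n + k → (Dn x r n t : ℤ) ≤ 6 * 2 ^ n := by
    intro k
    induction k with
    | zero =>
      intro n hn
      rw [down_far x r n t hn]
      positivity
    | succ k ih =>
      intro n hn
      have h1 := ih (n + 1) (by omega)
      have h2 := pot_eq x r (n + 1) t (by omega)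
      have h3 := pot_nonneg x r (n + 1) t
      have h4 := pot_le x r (n + 1) 0
      have h5 := conservation x r n t
      have h6 : (2 : ℤ) ^ (n + 1) = 2 * 2 ^ n := by ring
      have h7 : (1 : ℤ) ≤ 2 ^ n := one_le_pow₀ (by norm_num)
      rw [h6] at h1 h4
      split_ifs at h5 <;> linarith
  exact key (lev x + t) n (by omega)

lemma up_bound (n t : ℕ) : (Up x r n t : ℤ) ≤ 3 * 2 ^ n := by
  rcases Nat.eq_zero_or_pos n with hn | hn
  · subst hn
    have : Up x r 0 t = 0 := by
      rw [Up, Nat.count_eq_card_filter_range, Finset.card_eq_zero,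
        Finset.filter_eq_empty_iff]
      intro s _
      omega
    rw [this]
    norm_num
  · have h1 := down_bound x r n t
    have h2 := pot_eq x r n t (by omega)
    have h3 := pot_nonneg x r n t
    have h4 := pot_le x r n 0
    have h7 : (1 : ℤ) ≤ 2 ^ n := one_le_pow₀ (by norm_num)
    linarith

lemma visits_bound (v : W) (t : ℕ) :
    Nat.count (fun s => X x r s = v) t ≤ 9 * 2 ^ lev v := by
  have h1 := down_bound x r (lev v) t
  have h2 := up_bound x r (lev v) t
  have h3 : Nat.count (fun s => X x r s = v) t ≤ Dn x r (lev v) t + Up x r (lev v) t := by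
    induction t with
    | zero => simp
    | succ t ih =>
      have e1 : Dn x r (lev v) (t + 1) = Dn x r (lev v) t +
          if lev (X x r t) = lev v ∧ lev (X x r (t + 1)) = lev v + 1 then 1 else 0 :=
        Nat.count_succ _ _
      have e2 : Up x r (lev v) (t + 1) = Up x r (lev v) t +
          if lev (X x r t) = lev v ∧ lev (X x r (t + 1)) + 1 = lev v then 1 else 0 :=
        Nat.count_succ _ _
      rw [Nat.count_succ, e1, e2]
      have h4 := ih (down_bound x r (lev v) t) (up_bound x r (lev v) t)
      have h5 := lev_step x r t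
      by_cases hv : X x r t = v
      · rw [hv] at h5 ⊢
        split_ifs <;> omega
      · simp only [hv, if_false]
        omega
  have h8 : (Nat.count (fun s => X x r s = v) t : ℤ) ≤ 9 * 2 ^ lev v := by
    have : (Nat.count (fun s => X x r s = v) t : ℤ) ≤
        Dn x r (lev v) t + Up x r (lev v) t := by exact_mod_cast h3
    linarith
  exact_mod_cast h8

end Count

theorem transient (r : RotorConfig L) : Transient M r := by
  intro x v
  by_contra hinf
  have hinf' : {t : ℕ | X x r t = v}.Infinite := hinf
  have h1 := visits_bound x r v (Nat.nth (fun s => X x r s = v) (9 * 2 ^ lev v + 1))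
  rw [Nat.count_nth_of_infinite hinf'] at h1
  omega


lemma infinite_W : Infinite W :=
  Infinite.of_injective (fun n : ℕ => mk n 0 (by positivity))
    (fun a b h => congrArg (fun p : W => p.1.1) h)

lemma connected_L : L.Connected := by
  have h : ∀ n, ∀ p : W, lev p = n → L.Reachable p (mk 0 0 (by norm_num)) := by
    intro n
    induction n with
    | zero =>
      intro p hp
      have h1 : p = mk 0 0 (by norm_num) := by
        apply Subtype.ext
        have h2 := p.2
        have h3 : p.1.1 = 0 := hp
        rw [h3] at h2
        refine Prod.ext h3 ?_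
        show p.1.2 = 0
        simpa using h2
      rw [h1]
    | succ n ih =>
      intro p hp
      have h1 : L.Adj p (mk n 0 (by positivity)) := Or.inr (by simp [hp])
      exact h1.reachable.trans (ih _ rfl)
  haveI : Nonempty W := ⟨mk 0 0 (by norm_num)⟩
  exact { preconnected := fun p q => (h _ p rfl).trans (h _ q rfl).symm }

lemma locallyFinite (v : W) : (L.neighborSet v).Finite := by
  have : Finite (L.neighborSet v) := Finite.of_equiv _ (orderM v)
  exact Set.toFinite _

/-- There are an infinite, connected, locally finite graph and a rotor mechanism on it for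
which every initial rotor configuration is transient. -/
theorem result : ∃ (V : Type) (G : SimpleGraph V) (M : RotorMechanism G),
    Infinite V ∧ G.Connected ∧ (∀ v, (G.neighborSet v).Finite) ∧
    ∀ r : RotorConfig G, Transient M r :=
  ⟨W, L, M, infinite_W, connected_L, locallyFinite, transient⟩

end Pool.Agent.Results.MP_c5a801_co.AllTransient
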